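import Pool.Agent.Helper32.CL.St3

/-! Project CL (MP_b2fa09_gt), module WW: smallness of the error terms on long windows. -/

set_option autoImplicit false

namespace Pool.Agent.Helper42.CL

open Helper32.CL Helper35.PI Helper35.PI2 Pool.Agent.Helper35.CL
open scoped ContDiff Manifold Topology ENNReal BigOperators
open MeasureTheory Set Filter

theorem cst_slice {M : Type} [TopologicalSpace M] {V : Type} [TopologicalSpace V]
    {g : M → ℝ → V} (h : CST g) {t : ℝ} (ht : t < 0) : Continuous fun q => g q t := by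
  rw [← continuousOn_univ]
  exact ContinuousOn.comp (t := univ ×ˢ Iio 0) (g := fun z : M × ℝ => g z.1 z.2)
    (f := fun q : M => (q, t)) h (by fun_prop) (fun q _ => ⟨mem_univ _, ht⟩)

theorem hWW (hEV : StEV) (hOD : StOD) (hHU : StHU) (hCO : StCO) (hCN : StCN) (hEW : StEW)
    (hTD : StTD) (hMU : StMU) (hGA : StGA) : StWW := by
  intro N M _ _ _ _ _ _ _ _ _ F c χ hS c₀ hc₀ hpin
  obtain ⟨R, hR, hbd⟩ := hCO N M F c χ hS c₀ hc₀ hpin
  have hpin1 : ∀ (q : M) (t : ℝ), t < 0 → AA (n := 2) F q t ≤ ‖HH (n := 2) F q t‖ ^ 2 := by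
    intro q t ht
    have h1 := hpin q t ht
    have h2 : 0 ≤ ‖HH (n := 2) F q t‖ ^ 2 := by positivity
    nlinarith
  obtain ⟨e, g, e', he, hg, hec, hgc, hmain⟩ := hEV N M F c χ hS hpin1 R hR hbd
  obtain ⟨C, hC, -, hHUT⟩ := hHU N M F c χ hS c₀ hc₀ hpin
  obtain ⟨hEW1, hEW2, -⟩ := hEW N M F c χ hS
  obtain ⟨s, -, hMUt⟩ := hMU 2 N M F c χ hS
  obtain ⟨-, hCNH, -, -⟩ := hCN N M F hS.mcf
  obtain ⟨hTD1, -⟩ := hTD 2 N M F c χ hS
  have hYw : CST fun (q : M) (t : ℝ) => ‖HH (n := 2) F q t‖ ^ 2 * wF F q t := by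
    have h1 : ContinuousOn (fun z : M × ℝ => ‖HH (n := 2) F z.1 z.2‖ ^ 2) (univ ×ˢ Iio 0) :=
      (ContinuousOn.norm hCNH).pow 2
    exact h1.mul hEW1
  have hYwc := hTD1 _ hYw
  have hsplit : ∀ t < 0, ∫ q, (g1F F q t + ‖HH (n := 2) F q t‖ ^ 2 * wF F q t) ∂muM 2 F c χ t
      = ∫ q, g1F F q t ∂muM 2 F c χ t
        + ∫ q, ‖HH (n := 2) F q t‖ ^ 2 * wF F q t ∂muM 2 F c χ t := by
    intro t ht
    obtain ⟨-, -, hint⟩ := hMUt t ht
    refine integral_add (hint _ (hGA N M F hS.mcf t ht).1).1 (hint _ (cst_slice hYw ht)).1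
  have hcont : ContinuousOn (fun t => (∫ q, (g1F F q t + ‖HH (n := 2) F q t‖ ^ 2 * wF F q t)
      ∂muM 2 F c χ t) / (4 * t ^ 2)) (Iio 0) := by
    have h1 : ContinuousOn (fun t => (∫ q, g1F F q t ∂muM 2 F c χ t
        + ∫ q, ‖HH (n := 2) F q t‖ ^ 2 * wF F q t ∂muM 2 F c χ t) / (4 * t ^ 2)) (Iio 0) := by
      refine (hEW2.add hYwc).div (by fun_prop) ?_
      intro t ht
      have ht0 : t ≠ 0 := ne_of_lt ht
      positivity
    refine h1.congr ?_
    intro t ht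
    change (∫ q, (g1F F q t + ‖HH (n := 2) F q t‖ ^ 2 * wF F q t) ∂muM 2 F c χ t) / (4 * t ^ 2) = _
    rw [hsplit t ht]
  refine ⟨hcont, ?_⟩
  intro L ε hL hε
  have hK : 0 < 2 + R ^ 2 := by positivity
  have hHU' : ∀ T : ℝ, 1 ≤ T → ∫ t in (-T)..(-1), e t / (-t) ≤ C := by
    intro T hT
    refine le_trans (le_of_eq ?_) (hHUT T hT)
    refine intervalIntegral.integral_congr ?_
    intro t ht
    have h1 : t ≤ -1 := by
      rw [uIcc_of_le (by linarith)] at ht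
      exact ht.2
    have ht0 : t ≠ 0 := by
      intro h
      rw [h] at h1
      linarith
    change e t / (-t) = (∫ q, ‖wvF 2 (-2 * t) F q t‖ ^ 2 ∂(muM 2 F c χ t)) / (-t) ^ 3
    rw [he t]
    change (∫ q, ‖wvF 2 (-2 * t) F q t‖ ^ 2 ∂(muM 2 F c χ t)) / t ^ 2 / (-t) = _
    field_simp
  obtain ⟨T₀, hT₀, hT⟩ := hOD (2 + R ^ 2) C hK.le e g e' hec hgc
    (fun t ht => ⟨(hmain t ht).1, (hmain t ht).2.1, (hmain t ht).2.2.1,
      fun h => ((hmain t ht).2.2.2 h).2⟩) hHU' L (ε / (2 + R ^ 2)) hL (by positivity)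
  refine ⟨T₀, hT₀, fun T hTT => ?_⟩
  obtain ⟨hw1, hw2⟩ := hT T hTT
  have hT1 : 1 ≤ T := hT₀.trans hTT
  have hab : -(L * T) ≤ -T := by nlinarith
  have hsub : uIcc (-(L * T)) (-T) ⊆ Iio 0 := by
    rw [uIcc_of_le hab]
    intro t ht
    have := ht.2
    change t < 0
    linarith
  have hec2 : ContinuousOn (fun t => g t + e t / (-t)) (Iio 0) := by
    refine hgc.add (hec.div (by fun_prop) ?_)
    intro t ht
    have : t < 0 := ht
    exact ne_of_gt (by linarith)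
  calc ∫ t in (-(L * T))..(-T), (∫ q, (g1F F q t + ‖HH (n := 2) F q t‖ ^ 2 * wF F q t)
        ∂muM 2 F c χ t) / (4 * t ^ 2)
      ≤ ∫ t in (-(L * T))..(-T), (2 + R ^ 2) * (g t + e t / (-t)) := by
        refine intervalIntegral.integral_mono_on hab
          (hcont.mono hsub).intervalIntegrable
          ((continuousOn_const.mul (hec2.mono hsub))).intervalIntegrable ?_
        intro t ht
        have ht1 : t ≤ -1 := by linarith [ht.2]
        have ht0 : t < 0 := by linarith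
        obtain ⟨he0, hg0, -, hm⟩ := hmain t ht1
        obtain ⟨hm1, -⟩ := hm (hw1 t ht)
        have hx : 0 ≤ e t / (-t) := div_nonneg he0 (by linarith)
        have ht2 : t ≠ 0 := ne_of_lt ht0
        have h1 : (∫ q, (g1F F q t + ‖HH (n := 2) F q t‖ ^ 2 * wF F q t)
            ∂muM 2 F c χ t) / (4 * t ^ 2) = (g t
            + (∫ q, ‖HH (n := 2) F q t‖ ^ 2 * wF F q t ∂muM 2 F c χ t) / t ^ 2) / 4 := by
          rw [hsplit t ht0, hg t]
          field_simp
        rw [h1]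
        have h2 : 0 ≤ R ^ 2 * (e t / (-t)) := by positivity
        have h3 : 0 ≤ R ^ 2 * g t := by positivity
        nlinarith
    _ = (2 + R ^ 2) * ∫ t in (-(L * T))..(-T), (g t + e t / (-t)) :=
        intervalIntegral.integral_const_mul _ _
    _ ≤ (2 + R ^ 2) * (ε / (2 + R ^ 2)) := mul_le_mul_of_nonneg_left hw2 hK.le
    _ = ε := by field_simp

end Pool.Agent.Helper42.CL
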